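import Pool.Agent.helper17.SG.SpecM
import Pool.Agent.helper68.SG.SpecK

/-!
# SpecH: regularity of the density (project sg:, step R7 of the paper)

INPUT: `Comp A W ν C` (hitting probabilities comparable with `kk`, `ν` comparable with `lam`).
OUTPUT: `H19_stmt`: `ν` has a density which is Hoelder in the mean (`RegDens` of SpecK).

Notation of the docstrings: `h_E x = nux A ν x E`, `l_E x = lax A x E`, `Hu` = `A.Hu u`,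
`D_t = {y | A.Hu u y ≤ t}`, `sg = sg u`. `far u c` is the part of the circle at distance `≥ c` from
`u`. Scales: elements `x` with `Hu x ≤ s`, sets in `far u c`, always `8 s ≤ c`.
Everything of SpecP, SpecB, SpecM may be used as a hypothesis.
-/

set_option autoImplicit false

open MeasureTheory Set Metric Filter Topology
open scoped ENNReal NNReal ComplexConjugate

namespace Pool.Agent.SG

/-- the output of part R, input of this part -/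
structure Comp {Γ : Type} [Group Γ] (A : DiscRep Γ) (W : Walk Γ) (ν : Measure ℂ) (C : ℝ) : Prop
    where
  one : 1 ≤ C
  disc : A.Discrete
  coc : A.Cocompact
  nonel : A.NonEl
  stat : Stat A W ν
  up : ∀ x, W.hit 1 x ≤ ENNReal.ofReal (C * A.kk x)
  lo : ∀ x, ENNReal.ofReal (A.kk x) ≤ ENNReal.ofReal C * W.hit 1 x
  nu_le : ∀ E, MeasurableSet E → ν E ≤ ENNReal.ofReal C * lam E
  le_nu : ∀ E, MeasurableSet E → lam E ≤ ENNReal.ofReal C * ν E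

/-- the part of the circle at distance at least `c` from `u` -/
def far (u : ℂ) (c : ℝ) : Set ℂ := {ξ | ξ ∈ circ ∧ c ≤ ‖ξ - u‖}

/-- the visual measure from the boundary point `u` -/
noncomputable def sg (u : ℂ) (E : Set ℂ) : ℝ≥0∞ :=
  ∫⁻ ξ in E, ENNReal.ofReal (1 / ‖ξ - u‖ ^ 2) ∂lam

/-- H01. First consequences (uses P01, B01, B05, B14, M01).
Proof. `hit x y = hit (x * 1) (x * (x⁻¹ * y)) = hit 1 (x⁻¹ * y)` by left invariance (P01). `nux`, `lax`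
are images under the measurable map `act x` (`Measure.map_apply`). `lax x` is a probability since
`lam` is. -/
def H01_stmt : Prop := ∀ (Γ : Type) [Group Γ] (A : DiscRep Γ) (W : Walk Γ) (ν : Measure ℂ) (C : ℝ),
  Comp A W ν C → Infinite Γ ∧ Countable Γ ∧
  (∀ x y, W.hit x y ≤ ENNReal.ofReal (C * A.kk (x⁻¹ * y))) ∧
  (∀ x y, ENNReal.ofReal (A.kk (x⁻¹ * y)) ≤ ENNReal.ofReal C * W.hit x y) ∧
  (∀ x E, MeasurableSet E → nux A ν x E ≤ ENNReal.ofReal C * lax A x E) ∧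
  (∀ x E, MeasurableSet E → lax A x E ≤ ENNReal.ofReal C * nux A ν x E) ∧
  (∀ x, IsProbabilityMeasure (nux A ν x)) ∧ (∀ x, IsProbabilityMeasure (lax A x))

/-- H02. The visual measure seen from a point near `u` (uses B06, B18, B03, B05).
Proof. If `E = ∅` everything is `0`. Otherwise `c ≤ 2` (points of the circle), so `s ≤ 1/4`, and B18
gives `‖u - pt x‖ ≤ 2 Hu x ≤ 2 s`. For `ξ ∈ E`:
`‖ξ-u‖ (1 - 2s/c) ≤ ‖ξ-u‖ - 2s ≤ ‖ξ - pt x‖ ≤ ‖ξ-u‖ + 2s ≤ ‖ξ-u‖ (1 + 2s/c)`, and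
`poi (pt x) ξ = kk x / ‖ξ - pt x‖^2`. Integrate over `E` (B06, `withDensity_apply`; constants come
out of the `lintegral`). The second pair of inequalities follows since `2s/c ≤ 1/4`:
`(3/4)^(-2) ≤ 2`, `(5/4)^(-2) ≥ 1/2`. The bounds of `sg`: `c ≤ ‖ξ-u‖ ≤ 2` on `E`. (`s < 0` is
impossible because `Hu x ≥ 0`.) -/
def H02_stmt : Prop := ∀ (Γ : Type) [Group Γ] (A : DiscRep Γ) (u : ℂ) (c s : ℝ) (x : Γ)
  (E : Set ℂ), ‖u‖ = 1 → 0 < c → 8 * s ≤ c → A.Hu u x ≤ s → MeasurableSet E → E ⊆ far u c →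
  lax A x E ≤ ENNReal.ofReal (A.kk x / (1 - 2 * s / c) ^ 2) * sg u E ∧
  ENNReal.ofReal (A.kk x / (1 + 2 * s / c) ^ 2) * sg u E ≤ lax A x E ∧
  lax A x E ≤ ENNReal.ofReal (2 * A.kk x) * sg u E ∧
  ENNReal.ofReal (A.kk x / 2) * sg u E ≤ lax A x E ∧
  sg u E ≤ ENNReal.ofReal (1 / c ^ 2) * lam E ∧ ENNReal.ofReal (1 / 4) * lam E ≤ sg u E

/-- H03. Comparison of visual measures from two points near `u` (uses H02).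
Proof. With `ε = 2 s / c ≤ 1/4`: left side `≤ (1-ε)^(-4) kk x kk y sg E sg E'`, the product on the
right side is `≥ (1+ε)^(-4) kk x kk y sg E sg E'`, and `(1+ε)^4 ≤ (1 + 30 ε) (1-ε)^4` for
`0 ≤ ε ≤ 1/4`: the difference is `ε (22 - 120 ε + 172 ε^2 - 120 ε^3 + 30 ε^4) ≥ 0`. -/
def H03_stmt : Prop := ∀ (Γ : Type) [Group Γ] (A : DiscRep Γ) (u : ℂ) (c s : ℝ) (x y : Γ)
  (E E' : Set ℂ), ‖u‖ = 1 → 0 < c → 8 * s ≤ c → A.Hu u x ≤ s → A.Hu u y ≤ s →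
  MeasurableSet E → MeasurableSet E' → E ⊆ far u c → E' ⊆ far u c →
  lax A x E * lax A y E' ≤ ENNReal.ofReal (1 + 60 * s / c) * (lax A y E * lax A x E')

/-- H04. The exit points of a half plane (uses P05, B10, B18).
Proof. `M₀` from B10 for `S₀ = W.S`, `M = 4 M₀^2`. Let `D = {y | Hu y ≤ t}`, `x ∈ D`,
`exi D x w ≠ 0`. By P05 `w ∉ D`, so `t < Hu w`, `w ≠ x`, and `w = y s`, `y ∈ D`, `s ∈ W.S`. B10:
`Hu w ≤ M₀ Hu y ≤ M₀ t`; since `Hu y ≤ t ≤ 1`: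
`|Hu w - t| = Hu w - t ≤ Hu w - Hu y ≤ M₀ kk y ≤ M₀^2 kk w`; and `Hu w ≤ M t ≤ 1`, so by B18
`kk w ≤ 4 Hu w ≤ 4 M₀ t`. -/
def H04_stmt : Prop := ∀ (Γ : Type) [Group Γ] (A : DiscRep Γ) (W : Walk Γ),
  ∃ M : ℝ, 1 ≤ M ∧ ∀ (u : ℂ) (t : ℝ), ‖u‖ = 1 → 0 < t → M * t ≤ 1 → ∀ x w, A.Hu u x ≤ t →
    W.exi {y | A.Hu u y ≤ t} x w ≠ 0 → t < A.Hu u w ∧ A.Hu u w ≤ M * t ∧
      |A.Hu u w - t| ≤ M * A.kk w ∧ A.kk w ≤ M * t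

/-- H05. Square sum over a layer (uses B09).
Proof. B09 with this `M` and `η = M` (`M t ≤ 1` gives `t ≤ 1` and `Hu ≤ 1` on the set):
`∑' ke ≤ ofReal (C M t)`. On the set `ke w ^ 2 ≤ ofReal (M t) * ke w`. So `C₂ = C M^2`. -/
def H05_stmt : Prop := ∀ (Γ : Type) [Group Γ] (A : DiscRep Γ), A.Discrete → ∀ M : ℝ, 1 ≤ M →
  ∃ C₂ : ℝ, 0 < C₂ ∧ ∀ (u : ℂ) (t : ℝ), ‖u‖ = 1 → 0 < t → M * t ≤ 1 →
    ∑' w, {w | t < A.Hu u w ∧ A.Hu u w ≤ M * t ∧ |A.Hu u w - t| ≤ M * A.kk w ∧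
      A.kk w ≤ M * t}.indicator (fun w => A.ke w ^ 2) w ≤ ENNReal.ofReal (C₂ * t ^ 2)

/-- H06. Lower bound for the hitting probability before leaving a half plane
(uses H01, H04, H05, B03, B11, B18, P05, P09).
Proof. `M` from H04, `C₂` from H05 for this `M`, `C₁` from B11. Choose `κ ∈ (0, 1/2]` with
`8192 C^3 C₂ κ^2 ≤ 1`. Let `D = {y | Hu y ≤ t}`. Take `p` from B11 for `u` and the scale `κ t/C₁`:
`κ t/C₁^2 ≤ kk p ≤ κ t`, `‖u - pt p‖ ≤ κ t ≤ 1`, so `‖u + pt p‖ ≥ 1` and `Hu p ≤ κ t`; by B18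
`Hu p ≥ kk p/4 ≥ κ t/(4 C₁^2)`. Let `Hu x ≤ κ t/(4 C₁^2)`. P09:
`hit x p ≤ hid D x p + ∑' w, exi D x w * hit w p`.
(i) B18 (2) for the pair `(p, x)`: `kk p kk x ≤ 16 (Hu p)^2 kk (p⁻¹ x) ≤ 16 κ^2 t^2 kk (x⁻¹ p)`
(`kk` is invariant under inversion, B03), so `hit x p ≥ kk p kk x/(16 C κ^2 t^2) =: L`.
(ii) If `exi D x w ≠ 0`, then H04; `exi D x w ≤ hit x w ≤ C kk (w⁻¹ x) ≤ 16 C kk w kk x/t^2` by
B18 (1) for the pair `(w, x)` (`Hu x ≤ t/2 ≤ Hu w/2`, `Hu w ≤ 1`, `Hu w ≥ t`), and in the same way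
`hit w p ≤ C kk (w⁻¹ p) ≤ 16 C kk w kk p/t^2` (`Hu p ≤ t/2`). So the sum is at most
`256 C^2 kk x kk p t^(-4) ∑'_{layer} kk w^2 ≤ 256 C^2 C₂ kk x kk p/t^2 ≤ L/2`.
So `hid D x p ≥ L/2 = kk p kk x/(32 C κ^2 t^2) ≥ kk x/(32 C C₁^2 κ t)`.
`c₀ = min(κ/(4 C₁^2), 1/(32 C C₁^2 κ), 1)`. The first item is H04 (enlarge nothing: same `M`). -/
def H06_stmt : Prop := ∀ (Γ : Type) [Group Γ] (A : DiscRep Γ) (W : Walk Γ) (ν : Measure ℂ) (C : ℝ),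
  Comp A W ν C → ∃ c₀ M : ℝ, 0 < c₀ ∧ c₀ ≤ 1 ∧ 1 ≤ M ∧ ∀ (u : ℂ) (t : ℝ), ‖u‖ = 1 → 0 < t →
    M * t ≤ 1 →
    (∀ x w, A.Hu u x ≤ t → W.exi {y | A.Hu u y ≤ t} x w ≠ 0 → A.Hu u w ≤ M * t) ∧
    ∃ p, A.Hu u p ≤ t ∧ c₀ * t ≤ A.kk p ∧
      ∀ x, A.Hu u x ≤ c₀ * t →
        ENNReal.ofReal (c₀ * A.kk x / t) ≤ W.hid {y | A.Hu u y ≤ t} x p

/-- H07. Abstract comparison (independent).
Proof. `r w = exi D x w - q * exi D p w` (truncated), so `exi D x w = q * exi D p w + r w`. With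
`R = ∑' r w * h w`, `R' = ∑' r w * h' w`: `h x = q * h p + R`, `h' x = q * h' p + R'`
(`ENNReal.tsum_add`, `ENNReal.tsum_mul_left`), and `a R' ≤ R ≤ b R'` termwise (if
`exi D x w = 0` then `r w = 0`). -/
def H07_stmt : Prop := ∀ (Γ : Type) [Group Γ] (W : Walk Γ) (D : Set Γ) (h h' : Γ → ℝ≥0∞)
  (x p : Γ) (q a b : ℝ≥0∞), h x = ∑' w, W.exi D x w * h w → h p = ∑' w, W.exi D p w * h w →
  h' x = ∑' w, W.exi D x w * h' w → h' p = ∑' w, W.exi D p w * h' w →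
  (∀ w, q * W.exi D p w ≤ W.exi D x w) →
  (∀ w, W.exi D x w ≠ 0 → a * h' w ≤ h w ∧ h w ≤ b * h' w) →
  q * h p + a * h' x ≤ h x + a * (q * h' p) ∧ h x + b * (q * h' p) ≤ q * h p + b * h' x

/-- H08. Balayage for the harmonic measures of sets far from `u` (uses H01, H02, B14, M01, P08).
Proof. P08 for `h y = nux A ν y E`, harmonic (M01), `≤ 1`. For `y ∈ D`, by H01 and H02:
`h y ≤ C * lax y E ≤ ofReal (2 C kk y / c^2)` (`lam ≤ 1`). So `0 < ε < h y` implies that `kk y` is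
bounded below by a positive constant; B14: finite (`ε = ⊤`: the set is empty). -/
def H08_stmt : Prop := ∀ (Γ : Type) [Group Γ] (A : DiscRep Γ) (W : Walk Γ) (ν : Measure ℂ) (C : ℝ),
  Comp A W ν C → ∀ (u : ℂ) (c t : ℝ) (E : Set ℂ), ‖u‖ = 1 → 0 < c → 8 * t ≤ c →
    MeasurableSet E → E ⊆ far u c →
    ∀ x, nux A ν x E = ∑' w, W.exi {y | A.Hu u y ≤ t} x w * nux A ν w E

/-- H09. Contraction step (uses H01, H02, H06, H07, H08, B03, P10).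
Proof. `c₀, M` from H06; `k = c₀/(2 M)`, `σ = c₀^2/(4 C^2) ≤ 1/4`, `θ = 1 - σ`. Let `t = s/M`,
`D = {y | Hu y ≤ t}`, `p` from H06, `h = nux · E`, `h' = nux · E'` (real values between 0 and 1),
`S = (sg u E').toReal` (finite by H02). For `Hu y ≤ t` (H01, H02): `kk y S/(2C) ≤ h' y ≤ 2 C kk y S`.
Case `h' p = 0`: then `S = 0` (`kk p > 0`), `h' y = 0` for `Hu y ≤ t`, and `0 ≤ h y ≤ b h' y = 0`;
take `a' = b' = a`. Case `h' p > 0`: `ρ = h p/h' p ∈ [a, b]`, `a' = a + σ (ρ - a)`,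
`b' = b - σ (b - ρ)`, `b' - a' = θ (b - a)`. Let `Hu x ≤ c₀ t`, `q = c₀ kk x/t`. By H06 and P10
`ofReal q * exi D p w ≤ hid D x p * exi D p w ≤ exi D x w`. For `exi D x w ≠ 0`: `Hu w ≤ M t = s`,
so the hypothesis applies to `w`. H08 and H07 give (all values finite)
`h x ≥ a h' x + q (h p - a h' p) = a h' x + q h' p (ρ - a)` and
`h x ≤ b h' x - q h' p (b - ρ)`. Finally
`q h' p ≥ (c₀ kk x/t) (c₀ t) S/(2 C) = c₀^2 kk x S/(2C) ≥ σ h' x`. -/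
def H09_stmt : Prop := ∀ (Γ : Type) [Group Γ] (A : DiscRep Γ) (W : Walk Γ) (ν : Measure ℂ) (C : ℝ),
  Comp A W ν C → ∃ k θ : ℝ, 0 < k ∧ k < 1 ∧ 0 < θ ∧ θ < 1 ∧ ∀ (u : ℂ) (c s : ℝ) (E E' : Set ℂ),
    ‖u‖ = 1 → 0 < c → 0 < s → 8 * s ≤ c → s ≤ 1 → MeasurableSet E → MeasurableSet E' →
    E ⊆ far u c → E' ⊆ far u c → ∀ a b : ℝ, 0 ≤ a → a ≤ b →
    (∀ x, A.Hu u x ≤ s → a * (nux A ν x).real E' ≤ (nux A ν x).real E ∧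
      (nux A ν x).real E ≤ b * (nux A ν x).real E') →
    ∃ a' b' : ℝ, a ≤ a' ∧ b' ≤ b ∧ a' ≤ b' ∧ b' - a' ≤ θ * (b - a) ∧
      ∀ x, A.Hu u x ≤ k * s → a' * (nux A ν x).real E' ≤ (nux A ν x).real E ∧
        (nux A ν x).real E ≤ b' * (nux A ν x).real E'

/-- H10. Start of the iteration (uses H01, H02).
Proof. `S = sg E`, `S' = sg E'` (positive since `lam E ≠ 0`, finite, H02). For `Hu x ≤ s`:
`kk x S/(2C) ≤ nux x E ≤ 2 C kk x S`, the same for `E'`. `a₀ = S/(4 C^2 S')`. -/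
def H10_stmt : Prop := ∀ (Γ : Type) [Group Γ] (A : DiscRep Γ) (W : Walk Γ) (ν : Measure ℂ) (C : ℝ),
  Comp A W ν C → ∀ (u : ℂ) (c s : ℝ) (E E' : Set ℂ), ‖u‖ = 1 → 0 < c → 8 * s ≤ c →
    MeasurableSet E → MeasurableSet E' → E ⊆ far u c → E' ⊆ far u c → lam E ≠ 0 → lam E' ≠ 0 →
    ∃ a₀ : ℝ, 0 < a₀ ∧ ∀ x, A.Hu u x ≤ s → a₀ * (nux A ν x).real E' ≤ (nux A ν x).real E ∧
      (nux A ν x).real E ≤ 16 * C ^ 4 * a₀ * (nux A ν x).real E'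

/-- H11. Contraction (uses H01, H02, H09, H10).
Proof. If `lam E = 0` then `nux x E ≤ C * lax x E = 0` (H02), and the left side is `0`; the same if
`lam E' = 0`. Otherwise `s₀ = c/8 ≤ 1/4` and `a₀` from H10 for `s₀`, `b₀ = 16 C^4 a₀`. Iterate H09:
numbers `a₀ ≤ a_j ≤ b_j`, `b_j - a_j ≤ θ^j (b₀ - a₀) ≤ 16 C^4 θ^j a₀ ≤ 16 C^4 θ^j a_j`, with
`a_j nux x E' ≤ nux x E ≤ b_j nux x E'` for `Hu x ≤ k^j s₀`. Let `j` be maximal with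
`s ≤ k^j s₀`, so `k^(j+1) < 8 s/c`. With `α₁ = log θ/log k > 0`, `α = min(α₁, 1)`:
`θ^j = θ⁻¹ (k^(j+1))^(α₁) ≤ θ⁻¹ (8 s/c)^(α₁) ≤ 8 θ⁻¹ (s/c)^α` (as `8 s/c ≤ 1`). So
`nux x E * nux y E' ≤ b_j nux x E' nux y E' ≤ (1 + 16 C^4 θ^j) a_j nux y E' nux x E'
≤ (1 + 16 C^4 θ^j) nux y E nux x E'`, `K = 128 C^4/θ`. -/
def H11_stmt : Prop := ∀ (Γ : Type) [Group Γ] (A : DiscRep Γ) (W : Walk Γ) (ν : Measure ℂ) (C : ℝ),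
  Comp A W ν C → ∃ K α : ℝ, 0 < K ∧ 0 < α ∧ α ≤ 1 ∧ ∀ (u : ℂ) (c s : ℝ) (E E' : Set ℂ) (x y : Γ),
    ‖u‖ = 1 → 0 < c → c ≤ 2 → 0 < s → 8 * s ≤ c → MeasurableSet E → MeasurableSet E' →
    E ⊆ far u c → E' ⊆ far u c → A.Hu u x ≤ s → A.Hu u y ≤ s →
    (nux A ν x).real E * (nux A ν y).real E' ≤
      (1 + K * (s / c) ^ α) * ((nux A ν y).real E * (nux A ν x).real E')

/-- H12. Orbit points near `ζ` whose inverse is near `u` (uses B01, B03, B10, B11, B13).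
Proof. `T₀, c` from B13 (`c ≤ 2`), `C₁` from B11, `t₁ ∈ (0, 1]` with
`C₁ t₁ (1 + 1/c) ≤ min(s, 1)`, `y` from B11 for `u, t₁`. Given `ζ, τ` let `w` be from B11 for `ζ, τ`.
By B13 there is `t ∈ T₀` with `c ≤ ‖1 - conj (pt y⁻¹) * act t (pt w⁻¹)‖`. Put
`γ = w * (t⁻¹ * y⁻¹)`, so `γ⁻¹ = y * δ`, `δ = t * w⁻¹`, `pt δ = act t (pt w⁻¹)`. The last item of B03 for
`(y, δ)`: `‖pt γ⁻¹ - pt y‖ ≤ kk y/c ≤ C₁ t₁/c`, so `‖u - pt γ⁻¹‖ ≤ C₁ t₁ (1 + 1/c) ≤ min(s,1)`,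
hence `‖u + pt γ⁻¹‖ ≥ 1` and `Hu γ⁻¹ ≤ s`. B10 for the finite set
`{t⁻¹ * y⁻¹ | t ∈ T₀}` with constant `M`: `kk γ ≤ M kk w ≤ M C₁ τ`, `kk γ ≥ kk w/M ≥ τ/(M C₁)`,
`‖ζ - pt γ‖ ≤ C₁ τ + M kk w ≤ (C₁ + M C₁) τ`. `K = 2 M C₁`. -/
def H12_stmt : Prop := ∀ (Γ : Type) [Group Γ] (A : DiscRep Γ), A.Cocompact → A.NonEl →
  ∀ (u : ℂ) (s : ℝ), ‖u‖ = 1 → 0 < s → ∃ K : ℝ, 1 ≤ K ∧ ∀ (ζ : ℂ) (τ : ℝ), ‖ζ‖ = 1 → 0 < τ →
    τ ≤ 1 → ∃ γ, τ / K ≤ A.kk γ ∧ A.kk γ ≤ K * τ ∧ ‖ζ - A.pt γ‖ ≤ K * τ ∧ A.Hu u γ⁻¹ ≤ s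

/-- H13. Lebesgue points (uses B05; general measure theory).
Proof. `F = (ν.rnDeriv lam ·).toReal`; `ν ≪ lam`, `ν S = ∫⁻_S ofReal F dlam`, and
`1/C ≤ F ≤ C` for `lam`-a.e. point (from the two inequalities for all measurable sets). By the
Lebesgue differentiation theorem (`VitaliFamily.ae_tendsto_average_norm_sub` or
`ae_tendsto_lintegral_enorm_sub_div` for `Besicovitch.vitaliFamily lam` and
`Besicovitch.tendsto_filterAt`), for `lam`-a.e. `ζ` the averages of `|F - F ζ|` over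
`closedBall ζ r` tend to `0` as `r → 0+`. Choose such `ζ` on the circle with `1/C ≤ F ζ ≤ C`
(`lam ≠ 0`, `lam circᶜ = 0`), `φ = F ζ`. Given `δ, K`, let `η = δ/(C K^2)` and `τ₀` such that the
average is `≤ η` for `r ≤ K τ₀`. Then
`|ν S - φ lam S| ≤ ∫_{closedBall ζ (Kτ)} |F - φ| dlam ≤ η lam (closedBall ζ (Kτ)) ≤ η K τ
≤ η K^2 lam S ≤ δ φ lam S` (B05: `lam (closedBall z r) ≤ ofReal r`). -/
def H13_stmt : Prop := ∀ (ν : Measure ℂ) [IsFiniteMeasure ν] (C : ℝ), 1 ≤ C →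
  (∀ E, MeasurableSet E → ν E ≤ ENNReal.ofReal C * lam E) →
  (∀ E, MeasurableSet E → lam E ≤ ENNReal.ofReal C * ν E) →
  ∃ (ζ : ℂ) (φ : ℝ), ‖ζ‖ = 1 ∧ 0 < φ ∧ ∀ δ : ℝ, 0 < δ → ∀ K : ℝ, 1 ≤ K → ∃ τ₀ : ℝ, 0 < τ₀ ∧
    ∀ τ : ℝ, 0 < τ → τ ≤ τ₀ → ∀ S : Set ℂ, MeasurableSet S → S ⊆ closedBall ζ (K * τ) →
      ENNReal.ofReal (τ / K) ≤ lam S →
      ν.real S ≤ φ * (1 + δ) * lam.real S ∧ φ * (1 - δ) * lam.real S ≤ ν.real S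

/-- H14. Far away the density looks constant (uses H12, H13, B01, B03, B05, B15, B18, M01).
Proof. `ζ, φ` from H13, `K₁` from H12 for `u, s`. Since `lam E ≠ 0`, `E ≠ ∅`, so `c ≤ 2`, `s ≤ 1/4`.
For `τ ∈ (0, 1]` take `γ` from H12, `x = γ⁻¹`, `E_τ = circ ∩ act γ⁻¹ ⁻¹' E` (measurable). Then
`nux x E = ν E_τ`, `lax x E = lam E_τ` (`ν`, `lam` carried by `circ`). For `η ∈ E`:
`‖η - pt γ⁻¹‖ ≥ c - 2 Hu γ⁻¹ ≥ c - 2 s ≥ c/2` (B18). B15 with the constant `c/2`: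
`lam E_τ ≥ (kk γ/4) lam E ≥ τ lam E/(4 K₁)`, and `‖ξ - pt γ‖ ≤ 2 kk γ/c` for `ξ ∈ E_τ`, so
`E_τ ⊆ closedBall ζ ((K₁ + 2 K₁/c) τ)`. The same for `E'`. Let `K ≥ 1` be at least `K₁ + 2 K₁/c`,
`4 K₁/lam E`, `4 K₁/lam E'`, and `δ' = δ/(2+δ)`. By H13 for small `τ`:
`ν E_τ ≤ φ (1+δ') lam E_τ`, `ν E'_τ ≥ φ (1-δ') lam E'_τ`, and `(1+δ') = (1+δ)(1-δ')`, so
`ν E_τ lam E'_τ ≤ (1+δ) ν E'_τ lam E_τ`. -/
def H14_stmt : Prop := ∀ (Γ : Type) [Group Γ] (A : DiscRep Γ) (W : Walk Γ) (ν : Measure ℂ) (C : ℝ),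
  Comp A W ν C → ∀ (u : ℂ) (c s δ : ℝ) (E E' : Set ℂ), ‖u‖ = 1 → 0 < c → 0 < s → 8 * s ≤ c →
    0 < δ → MeasurableSet E → MeasurableSet E' → E ⊆ far u c → E' ⊆ far u c →
    lam E ≠ 0 → lam E' ≠ 0 → ∃ x, A.Hu u x ≤ s ∧
      (nux A ν x).real E * (lax A x).real E' ≤
        (1 + δ) * ((nux A ν x).real E' * (lax A x).real E)

/-- H15. Oscillation in half planes (uses H01, H02, H03, H11, H14, B03).
Proof. If `lam E = 0` or `lam E' = 0` the left side is `0` (H01, H02: `lax x E ≤ .. sg E`,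
`sg E ≤ .. lam E`). Otherwise let `δ > 0` and `y` from H14. Multiply the three inequalities
`nux x E nux y E' ≤ (1 + K₁ (s/c)^α) nux y E nux x E'` (H11),
`lax y E lax x E' ≤ (1 + 60 s/c) lax x E lax y E'` (H03),
`nux y E lax y E' ≤ (1+δ) nux y E' lax y E` (H14) and cancel the positive number
`nux y E' lax y E nux y E lax y E'` (positive by H01, H02: `lax y E ≥ (kk y/2) sg E ≥
(kk y/8) lam E`). Then `δ → 0`, and `(1 + K₁ z^α)(1 + 60 z) ≤ 1 + (K₁ + 60 + 60 K₁) z^α` for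
`z = s/c ≤ 1`, `α ≤ 1`. -/
def H15_stmt : Prop := ∀ (Γ : Type) [Group Γ] (A : DiscRep Γ) (W : Walk Γ) (ν : Measure ℂ) (C : ℝ),
  Comp A W ν C → ∃ K α : ℝ, 0 < K ∧ 0 < α ∧ α ≤ 1 ∧ ∀ (u : ℂ) (c s : ℝ) (E E' : Set ℂ) (x : Γ),
    ‖u‖ = 1 → 0 < c → c ≤ 2 → 0 < s → 8 * s ≤ c → MeasurableSet E → MeasurableSet E' →
    E ⊆ far u c → E' ⊆ far u c → A.Hu u x ≤ s →
    (nux A ν x).real E * (lax A x).real E' ≤
      (1 + K * (s / c) ^ α) * ((nux A ν x).real E' * (lax A x).real E)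

/-- H16. Oscillation on small arcs (uses H01, H15, B01, B03, B04, B05, B11, M01).
Proof. `K₁, α` from H15, `C₁` from B11, `c = 1/(2 C₁ (C₁+1)) ≤ 1/4`, `r₀ = c/(8 C₁)`. Let `r ≤ r₀`.
`γ` from B11 for `ζ, r`; `x = γ⁻¹`; `kk x = kk γ ≤ C₁ r ≤ 1/2`, so `‖pt x‖ ≥ 1/2`
(`1 - ‖pt x‖ ≤ 1 - ‖pt x‖^2 = kk x`). `u = pt x/‖pt x‖`; `‖u - pt x‖ = 1 - ‖pt x‖ ≤ C₁ r`,
`‖u + pt x‖ ≥ 1`, so `Hu x ≤ C₁ r =: s`, `8 s ≤ c`. For `ξ ∈ E`: `‖ξ - pt γ‖ ≤ (C₁+1) r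
≤ C₁ (C₁+1) kk γ`, so by B04 (for `x`, `x⁻¹ = γ`) `‖act x ξ - pt x‖ = kk x/‖ξ - pt γ‖ ≥ 2 c` and
`‖act x ξ - u‖ ≥ 2 c - C₁ r ≥ c`. Let `E₁ = {η ∈ circ | act γ η ∈ E}`, measurable, `⊆ far u c`
(`η = act x (act γ η)`, B01). `act x ξ ∈ E₁ ↔ ξ ∈ E` for `ξ ∈ circ`, so `nux x E₁ = ν E`,
`lax x E₁ = lam E`; the same for `E'`. H15 gives the claim with `K₁ (C₁ r/c)^α`. For `r > r₀`:
`ν E lam E' ≤ C lam E * C ν E' ≤ C^2 r₀^(-α) r^α (..)`. -/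
def H16_stmt : Prop := ∀ (Γ : Type) [Group Γ] (A : DiscRep Γ) (W : Walk Γ) (ν : Measure ℂ) (C : ℝ),
  Comp A W ν C → ∃ K α : ℝ, 0 < K ∧ 0 < α ∧ α ≤ 1 ∧ ∀ (ζ : ℂ) (r : ℝ) (E E' : Set ℂ),
    ‖ζ‖ = 1 → 0 < r → r ≤ 1 → MeasurableSet E → MeasurableSet E' →
    E ⊆ closedBall ζ r ∩ circ → E' ⊆ closedBall ζ r ∩ circ →
    ν.real E * lam.real E' ≤ (1 + K * r ^ α) * (ν.real E' * lam.real E)

/-- H17. The density is Hoelder up to null sets (uses H16, B05).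
Proof. `g = (ν.rnDeriv lam ·).toReal`, `f = min g C`, measurable. `ν ≤ C lam` on measurable sets gives
`ν ≪ lam`, `rnDeriv ≤ ofReal C` a.e. (`Measure.rnDeriv` and `ae_le_of_forall_setLIntegral_le...`, or
B17 style), so `f = g` a.e. and `ν = lam.withDensity (ofReal ∘ f)`. `Besicovitch.ae_tendsto_rnDeriv`:
for `lam`-a.e. `ξ`, `ν (closedBall ξ ρ)/lam (closedBall ξ ρ) → rnDeriv ξ` as `ρ → 0+`. Let `ξ ≠ ζ` be
two such points of the circle where also `f = g`, `r = 2 ‖ξ - ζ‖`. If `r ≤ 1`: for `ρ ≤ r/2` H16 with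
`E = circ ∩ closedBall ξ ρ`, `E' = circ ∩ closedBall ζ ρ` (in `closedBall ξ r`), divide by the
positive `lam E`, `lam E'` (B05), `ρ → 0`: `f ξ ≤ (1 + K₁ r^α) f ζ`, and symmetrically; so
`|f ξ - f ζ| ≤ C K₁ r^α ≤ 2 C K₁ ‖ξ - ζ‖^α`. If `r > 1`: `|f ξ - f ζ| ≤ C ≤ C r^α`. -/
def H17_stmt : Prop := ∀ (Γ : Type) [Group Γ] (A : DiscRep Γ) (W : Walk Γ) (ν : Measure ℂ) (C : ℝ),
  Comp A W ν C → ∃ (f : ℂ → ℝ) (K α : ℝ), 0 < α ∧ α ≤ 1 ∧ Measurable f ∧ (∀ ξ, 0 ≤ f ξ) ∧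
    (∀ ξ, f ξ ≤ K) ∧ (ν = lam.withDensity fun ξ => ENNReal.ofReal (f ξ)) ∧
    ∀ᵐ ξ ∂lam, ∀ᵐ ζ ∂lam, |f ξ - f ζ| ≤ K * ‖ξ - ζ‖ ^ α

/-- H18. A Poisson integral (uses B05, K01, K02).
Proof. The first item is K02 for `H = 1` (real part; `‖ρ ξ‖ = ρ < 1`). Integrability: on the circle
`‖ζ - ρ ξ‖ ≥ 1 - ρ`, so the integrands are bounded measurable functions, `lam` is finite. Second:
let `d = (1-ρ)^(1/3)`. For `‖ζ‖ = 1`: `‖ζ - ξ‖ ≤ ‖ζ - ρ ξ‖ + (1-ρ) ≤ 2 ‖ζ - ρ ξ‖`. If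
`‖ξ - ζ‖ ≤ d` the integrand is `≤ poi * d^α`; otherwise
`poi ≤ 2 (1-ρ) * 4/d^2 = 8 (1-ρ)^(1/3)` and `‖ξ-ζ‖^α ≤ 2`, so it is `≤ 16 (1-ρ)^(1/3) ≤
16 (1-ρ)^(α/3)`. Sum of the two bounds, integrated: `17 (1-ρ)^(α/3)`. -/
def H18_stmt : Prop := ∀ (ρ α : ℝ) (ξ : ℂ), ρ ∈ Ioo (0 : ℝ) 1 → 0 < α → α ≤ 1 → ‖ξ‖ = 1 →
  Integrable (fun ζ => poi (ρ * ξ) ζ) lam ∧ ∫ ζ, poi (ρ * ξ) ζ ∂lam = 1 ∧
  Integrable (fun ζ => poi (ρ * ξ) ζ * ‖ξ - ζ‖ ^ α) lam ∧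
  ∫ ζ, poi (ρ * ξ) ζ * ‖ξ - ζ‖ ^ α ∂lam ≤ 17 * (1 - ρ) ^ (α / 3)

/-- H19. RESULT (uses H17, H18, B05, K01).
Proof. `f, K, α` from H17. `∫ poi (ρ ξ) ζ ∂ν = ∫ poi (ρ ξ) ζ f ζ ∂lam`
(`integral_withDensity_eq_integral_toReal_smul` or similar). For a.e. `ξ` (on the circle, and with the
property of H17): `|f ξ - ∫ poi f| = |∫ poi (ρ ξ) ζ (f ξ - f ζ) ∂lam| ≤ K ∫ poi ‖ξ-ζ‖^α
≤ 17 K (1-ρ)^(α/3)` by H18. Integrate over the probability `lam` (a nonnegative function bounded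
a.e. by a constant: `integral_mono_of_nonneg`). `C' = 17 K`, `a' = α/3`; `K ≥ f ≥ 0`. -/
def H19_stmt : Prop := ∀ (Γ : Type) [Group Γ] (A : DiscRep Γ) (W : Walk Γ) (ν : Measure ℂ) (C : ℝ),
  Comp A W ν C → ∃ (f : ℂ → ℝ) (C' a' : ℝ), RegDens ν f C' a'

end Pool.Agent.SG
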