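import Pool.Agent.helper48.SG.SpecH

set_option autoImplicit false

open MeasureTheory Set Metric Filter Topology
open scoped ENNReal NNReal ComplexConjugate

namespace Pool.Agent.SG

theorem H06 (h1 : H01_stmt) (h4 : H04_stmt) (h5 : H05_stmt) (b3 : B03_stmt) (b11 : B11_stmt)
    (b18 : B18_stmt) (p5 : P05_stmt) (p9 : P09_stmt) : H06_stmt := by
  intro Γ _ A W ν C hC
  obtain ⟨M, hM, h4⟩ := h4 Γ A W
  obtain ⟨C₂, hC₂, h5⟩ := h5 Γ A hC.disc M hM
  obtain ⟨C₁, hC₁, h11⟩ := b11 Γ A hC.coc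
  obtain ⟨-, -, hup, hlo, -⟩ := h1 Γ A W ν C hC
  obtain ⟨hkk, -, -, -, hinv, -⟩ := b3 Γ A
  have hC0 : 1 ≤ C := hC.one
  have hCpos : 0 < C := by linarith
  have hC1pos : 0 < C₁ := by linarith
  have hswap : ∀ x y : Γ, A.kk (x⁻¹ * y) = A.kk (y⁻¹ * x) := by
    intro x y
    rw [← hinv (y⁻¹ * x)]
    congr 1
    group
  set Q : ℝ := 8192 * C ^ 3 * C₂ with hQ
  have hQpos : 0 < Q := by positivity
  set κ : ℝ := min (1 / 2) (1 / (Q + 1)) with hκ
  have hκpos : 0 < κ := lt_min (by norm_num) (by positivity)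
  have hκ2 : κ ≤ 1 / 2 := min_le_left _ _
  have hκQ : Q * κ ^ 2 ≤ 1 := by
    have h1 : κ ≤ 1 / (Q + 1) := min_le_right _ _
    have h2 : κ * (Q + 1) ≤ 1 := by
      rw [le_div_iff₀ (by positivity)] at h1
      exact h1
    nlinarith
  set c₀ : ℝ := min (κ / (4 * C₁ ^ 2)) (min (1 / (32 * C * C₁ ^ 2 * κ)) 1) with hc₀
  have hc0pos : 0 < c₀ := lt_min (by positivity) (lt_min (by positivity) one_pos)
  have hc0a : c₀ ≤ κ / (4 * C₁ ^ 2) := min_le_left _ _
  have hc0b : c₀ ≤ 1 / (32 * C * C₁ ^ 2 * κ) := (min_le_right _ _).trans (min_le_left _ _)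
  have hc0c : c₀ ≤ 1 := (min_le_right _ _).trans (min_le_right _ _)
  refine ⟨c₀, M, hc0pos, hc0c, hM, ?_⟩
  intro u t hu ht hMt
  obtain ⟨b1, b2, b4, -⟩ := b18 Γ A u hu
  have ht1 : t ≤ 1 := by nlinarith
  refine ⟨fun x w hx hw => (h4 u t hu ht hMt x w hx hw).2.1, ?_⟩
  -- the point `p`
  obtain ⟨p, hp1, hp2, hp3⟩ := h11 u (κ * t / C₁) hu (by positivity) (by
    rw [div_le_one hC1pos]
    nlinarith)
  have e1 : C₁ * (κ * t / C₁) = κ * t := by field_simp
  have e2 : κ * t / C₁ / C₁ = κ * t / C₁ ^ 2 := by rw [div_div, sq]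
  rw [e1] at hp2 hp3
  rw [e2] at hp1
  have hκt : κ * t ≤ 1 / 2 := by nlinarith
  have hup1 : 1 ≤ ‖u + A.pt p‖ := by
    have h : ‖u + u‖ ≤ ‖u + A.pt p‖ + ‖u - A.pt p‖ := by
      have : u + u = (u + A.pt p) + (u - A.pt p) := by ring
      rw [this]
      exact norm_add_le _ _
    have h2 : ‖u + u‖ = 2 := by
      rw [← two_mul, norm_mul, hu]
      norm_num
    linarith
  have hHp : A.Hu u p ≤ κ * t := by
    have h : A.Hu u p ≤ ‖u - A.pt p‖ := div_le_self (norm_nonneg _) hup1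
    exact h.trans hp3
  have hHp1 : A.Hu u p ≤ 1 := by linarith
  have hkp : A.kk p ≤ 4 * A.Hu u p := (b4 p hHp1).1
  have hkpl : κ * t / C₁ ^ 2 ≤ A.kk p := hp1
  have hHpl : κ * t / (4 * C₁ ^ 2) ≤ A.Hu u p := by
    have : κ * t / (4 * C₁ ^ 2) = κ * t / C₁ ^ 2 / 4 := by
      field_simp
    rw [this]
    linarith
  have hHp0 : 0 < A.Hu u p := lt_of_lt_of_le (by positivity) hHpl
  have hHpt : A.Hu u p ≤ t / 2 := by nlinarith
  refine ⟨p, by linarith, ?_, ?_⟩
  · have h : c₀ * t ≤ κ / (4 * C₁ ^ 2) * t := mul_le_mul_of_nonneg_right hc0a ht.le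
    have h2 : κ / (4 * C₁ ^ 2) * t = κ * t / C₁ ^ 2 / 4 := by field_simp
    have h3 : 0 < κ * t / C₁ ^ 2 := by positivity
    linarith
  intro x hx
  have hxp : A.Hu u x ≤ A.Hu u p := by
    refine hx.trans (le_trans ?_ hHpl)
    have h : c₀ * t ≤ κ / (4 * C₁ ^ 2) * t := mul_le_mul_of_nonneg_right hc0a ht.le
    have h2 : κ / (4 * C₁ ^ 2) * t = κ * t / (4 * C₁ ^ 2) := by ring
    linarith
  have hxt : A.Hu u x ≤ t / 2 := hxp.trans hHpt
  have hX : 0 < A.kk x := (hkk x).1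
  have hP : 0 < A.kk p := (hkk p).1
  set X := A.kk x with hXd
  set P := A.kk p with hPd
  set L : ℝ := P * X / (16 * C * κ ^ 2 * t ^ 2) with hL
  have hLpos : 0 < L := by positivity
  -- (i)
  have hi : ENNReal.ofReal L ≤ W.hit x p := by
    have h2 : P * X ≤ 16 * A.Hu u p ^ 2 * A.kk (x⁻¹ * p) := by
      have := b2 p x hHp1 hxp
      rw [hswap x p]
      exact this
    have h3 : P * X ≤ 16 * (κ * t) ^ 2 * A.kk (x⁻¹ * p) := by
      have h4 : A.Hu u p ^ 2 ≤ (κ * t) ^ 2 := pow_le_pow_left₀ hHp0.le hHp 2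
      have h5 : 0 < A.kk (x⁻¹ * p) := (hkk _).1
      nlinarith
    have h4 : C * L ≤ A.kk (x⁻¹ * p) := by
      have h5 : C * L = P * X / (16 * (κ * t) ^ 2) := by
        rw [hL]
        field_simp
      rw [h5, div_le_iff₀ (by positivity)]
      linarith
    have h5 : ENNReal.ofReal C * ENNReal.ofReal L ≤ ENNReal.ofReal C * W.hit x p := by
      rw [← ENNReal.ofReal_mul hCpos.le]
      exact (ENNReal.ofReal_le_ofReal h4).trans (hlo x p)
    exact (ENNReal.mul_le_mul_iff_right (by simpa using hCpos) ENNReal.ofReal_ne_top).1 h5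
  -- (ii)
  set D : Set Γ := {y | A.Hu u y ≤ t} with hD
  set K' : ℝ := 256 * C ^ 2 * X * P / t ^ 4 with hK'
  have hii : ∑' w, W.exi D x w * W.hit w p ≤ ENNReal.ofReal (L / 2) := by
    have hterm : ∀ w, W.exi D x w * W.hit w p ≤ ENNReal.ofReal K' *
        ({w | t < A.Hu u w ∧ A.Hu u w ≤ M * t ∧ |A.Hu u w - t| ≤ M * A.kk w ∧
          A.kk w ≤ M * t}.indicator (fun w => A.ke w ^ 2) w) := by
      intro w
      by_cases hw : W.exi D x w = 0
      · rw [hw, zero_mul]
        exact zero_le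
      · have hlay := h4 u t hu ht hMt x w (by linarith) hw
        rw [indicator_of_mem (show w ∈ {w | t < A.Hu u w ∧ A.Hu u w ≤ M * t ∧
          |A.Hu u w - t| ≤ M * A.kk w ∧ A.kk w ≤ M * t} from hlay)]
        obtain ⟨hw1, hw2, -, -⟩ := hlay
        have hkw : 0 < A.kk w := (hkk w).1
        have hHw1 : A.Hu u w ≤ 1 := by linarith
        have hgen : ∀ z, A.Hu u z ≤ t / 2 → C * A.kk (w⁻¹ * z) ≤
            16 * C * A.kk w * A.kk z / t ^ 2 := by
          intro z hz
          have h := b1 w z hHw1 (by linarith)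
          have h5 : 0 < A.kk (w⁻¹ * z) := (hkk _).1
          have h6 : t ^ 2 ≤ A.Hu u w ^ 2 := pow_le_pow_left₀ ht.le hw1.le 2
          rw [le_div_iff₀ (by positivity)]
          have h7 : A.kk (w⁻¹ * z) * t ^ 2 ≤ 16 * A.kk w * A.kk z := by
            refine le_trans ?_ h
            exact mul_le_mul_of_nonneg_left h6 h5.le
          nlinarith
        have ha : W.exi D x w ≤ ENNReal.ofReal (16 * C * A.kk w * X / t ^ 2) := by
          refine ((p5 Γ W D).2.1 x w).trans ((hup x w).trans (ENNReal.ofReal_le_ofReal ?_))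
          rw [hswap x w]
          exact hgen x hxt
        have hb : W.hit w p ≤ ENNReal.ofReal (16 * C * A.kk w * P / t ^ 2) :=
          (hup w p).trans (ENNReal.ofReal_le_ofReal (hgen p hHpt))
        refine (mul_le_mul' ha hb).trans (le_of_eq ?_)
        rw [← ENNReal.ofReal_mul (by positivity), DiscRep.ke, ← ENNReal.ofReal_pow hkw.le,
          ← ENNReal.ofReal_mul (by positivity)]
        congr 1
        rw [hK']
        field_simp
        ring
    refine (ENNReal.tsum_le_tsum hterm).trans ?_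
    rw [ENNReal.tsum_mul_left]
    refine (mul_le_mul_right (h5 u t hu ht hMt) _).trans ?_
    rw [← ENNReal.ofReal_mul (by positivity)]
    apply ENNReal.ofReal_le_ofReal
    have h6 : K' * (C₂ * t ^ 2) = P * X / (t ^ 2 * (32 * C * κ ^ 2)) * (Q * κ ^ 2) := by
      rw [hK', hQ]
      field_simp
      ring
    have h7 : L / 2 = P * X / (t ^ 2 * (32 * C * κ ^ 2)) := by
      rw [hL]
      field_simp
      ring
    rw [h6, h7]
    exact mul_le_of_le_one_right (by positivity) hκQ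
  have hmain : ENNReal.ofReal (L / 2) ≤ W.hid D x p := by
    have h := hi.trans ((p9 Γ W D x p).trans (add_le_add_right hii _))
    have h8 : ENNReal.ofReal L = ENNReal.ofReal (L / 2) + ENNReal.ofReal (L / 2) := by
      rw [← ENNReal.ofReal_add (by positivity) (by positivity)]
      congr 1
      ring
    rw [h8] at h
    exact (ENNReal.add_le_add_iff_right ENNReal.ofReal_ne_top).1 h
  refine le_trans (ENNReal.ofReal_le_ofReal ?_) hmain
  have h9 : κ * t / C₁ ^ 2 * X / (32 * C * κ ^ 2 * t ^ 2) ≤ L / 2 := by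
    have : L / 2 = P * X / (32 * C * κ ^ 2 * t ^ 2) := by
      rw [hL]
      field_simp
      ring
    rw [this]
    gcongr
  refine le_trans ?_ h9
  have h10 : κ * t / C₁ ^ 2 * X / (32 * C * κ ^ 2 * t ^ 2) =
      1 / (32 * C * C₁ ^ 2 * κ) * X / t := by
    field_simp
  rw [h10]
  gcongr

end Pool.Agent.SG
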