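import Pool.Agent.helper98.SG.B01
import Pool.Agent.helper63.SG.B02
import Pool.Agent.helper77.SG.B03
import Pool.Agent.helper29.SG.B04
import Pool.Agent.helper51.SG.B05
import Pool.Agent.helper67.SG.B06
import Pool.Agent.helper52.SG.B07
import Pool.Agent.helper23.SG.B09
import Pool.Agent.helper76.SG.B10
import Pool.Agent.helper91.SG.B11
import Pool.Agent.helper19.SG.B13
import Pool.Agent.helper84.SG.B14
import Pool.Agent.helper30.SG.B15
import Pool.Agent.helper85.SG.B18
import Pool.Agent.helper87.SG.P01
import Pool.Agent.helper43.SG.P05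
import Pool.Agent.helper93.SG.P06
import Pool.Agent.helper8.SG.P07
import Pool.Agent.helper67.SG.P08
import Pool.Agent.helper63.SG.P09
import Pool.Agent.helper72.SG.P10
import Pool.Agent.helper13.SG.M01
import Pool.Agent.helper13.SG.K01
import Pool.Agent.helper11.SG.K02
import Pool.Agent.helper92.SG.H01
import Pool.Agent.helper46.SG.H02
import Pool.Agent.helper59.SG.H03
import Pool.Agent.helper8.SG.H04
import Pool.Agent.helper58.SG.H05
import Pool.Agent.helper48.SG.H06
import Pool.Agent.helper49.SG.H07
import Pool.Agent.helper98.SG.H08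
import Pool.Agent.helper1.SG.H09
import Pool.Agent.helper50.SG.H10
import Pool.Agent.helper76.SG.H11
import Pool.Agent.helper66.SG.H16
import Pool.Agent.helper19.SG.H12
import Pool.Agent.helper13.SG.H13
import Pool.Agent.helper28.SG.H14
import Pool.Agent.helper73.SG.H15
import Pool.Agent.helper41.SG.H17
import Pool.Agent.helper51.SG.H18
import Pool.Agent.helper81.SG.H19

set_option autoImplicit false

namespace Pool.Agent.SG.AllH

theorem b01 : B01_stmt := B01
theorem b02 : B02_stmt := B02 b01
theorem b03 : B03_stmt := B03 b01 b02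
theorem b04 : B04_stmt := B04 b02
theorem b05 : B05_stmt := B05
theorem b06 : B06_stmt := B06 b01 b05
theorem b07 : B07_stmt := B07 b03
theorem b09 : B09_stmt := B09 b03 b07
theorem b10 : B10_stmt := B10 b03
theorem b11 : B11_stmt := B11 b01 b02 b03
theorem b13 : B13_stmt := B13 b01 b03
theorem b14 : B14_stmt := B14 b01 b03
theorem b15 : B15_stmt := B15 b01 b03 b04 b06
theorem b18 : B18_stmt := B18 b03
theorem p01 : P01_stmt := P01
theorem p05 : P05_stmt := P05
theorem p06 : P06_stmt := P06
theorem p07 : P07_stmt := P07 p06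
theorem p08 : P08_stmt := P08 p05 p06 p07
theorem p09 : P09_stmt := P09 p01 p05
theorem p10 : P10_stmt := P10 p05
theorem m01 : M01_stmt := M01 b01
theorem k01 : K01_stmt := K01
theorem k02 : K02_stmt := K02 k01
theorem h01 : H01_stmt := H01 p01 b01 b05 b14 m01
theorem h02 : H02_stmt := H02 b06 b18 b03
theorem h03 : H03_stmt := H03 h02
theorem h04 : H04_stmt := H04 p05 b10 b18
theorem h05 : H05_stmt := H05 b09
theorem h06 : H06_stmt := H06 h01 h04 h05 b03 b11 b18 p05 p09
theorem h07 : H07_stmt := H07
theorem h08 : H08_stmt := H08 h01 h02 b14 m01 p08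
theorem h09 : H09_stmt := H09 h01 h02 h06 h07 h08 b03 p10
theorem h10 : H10_stmt := H10 h01 h02 b03 b05
theorem h11 : H11_stmt := H11 h01 h02 h09 h10
theorem h12 : H12_stmt := H12 b01 b03 b10 b11 b13
theorem h13 : H13_stmt := H13 b05
theorem h14 : H14_stmt := H14 h12 h13 b01 b05 b15 b18 m01
theorem h15 : H15_stmt := H15 h01 h02 h03 h11 h14 b03
theorem h16 : H16_stmt := H16 h15 b01 b03 b04 b05 b11
theorem h17 : H17_stmt := H17 h16 b05
theorem h18 : H18_stmt := H18 b05 k02
theorem h19 : H19_stmt := H19 h17 h18 k01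

end Pool.Agent.SG.AllH
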